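import Mathlib
import Pool.Agent.Helper208.Rainbow.LLL

/-!
# Colouring a `t`-uniform hypergraph of degree at most `t` with two colours, `t ≥ 9`
-/

set_option autoImplicit false

open Finset

namespace Pool.Agent.H663R5.BF

open Pool.Agent.Helper208.Rainbow

theorem six_le (t : ℕ) (ht : 9 ≤ t) : 6 * (t * (t - 1) + 1) ≤ 2 ^ t := by
  induction t, ht using Nat.le_induction with
  | base => norm_num
  | succ t ht ih =>
    obtain ⟨k, rfl⟩ : ∃ k, t = k + 1 := ⟨t - 1, by omega⟩
    simp only [Nat.add_sub_cancel] at ih ⊢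
    rw [pow_succ]
    nlinarith

theorem card_const {n : ℕ} (E : Finset (Fin n)) (b : Bool) :
    (univ.filter (fun ω : Fin n → Bool => ∀ v ∈ E, ω v = b)).card * 2 ^ E.card = 2 ^ n := by
  have h1 : (univ.filter (fun ω : Fin n → Bool => ∀ v ∈ E, ω v = b)) =
      Fintype.piFinset (fun v => if v ∈ E then {b} else univ) := by
    ext ω
    simp only [mem_filter, mem_univ, true_and, Fintype.mem_piFinset]
    constructor
    · intro h v
      by_cases hv : v ∈ E
      · simp [hv, h v hv]
      · simp [hv]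
    · intro h v hv
      have := h v
      simpa [hv] using this
  rw [h1, Fintype.card_piFinset]
  have h2 : ∀ v : Fin n, (if v ∈ E then ({b} : Finset Bool) else univ).card =
      if v ∈ E then 1 else 2 := by
    intro v
    split_ifs <;> simp
  simp only [h2]
  have h3 : (2 : ℕ) ^ E.card = ∏ v : Fin n, if v ∈ E then 2 else 1 := by
    rw [Finset.prod_ite_mem, Finset.univ_inter, Finset.prod_const]
  rw [h3, ← Finset.prod_mul_distrib]
  have h4 : ∀ v : Fin n, (if v ∈ E then 1 else 2) * (if v ∈ E then 2 else 1) = 2 := by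
    intro v
    split_ifs <;> rfl
  simp only [h4, Finset.prod_const, Finset.card_univ, Fintype.card_fin]

theorem two_col {m n t : ℕ} (ht : 9 ≤ t) (P : Finset (Fin m)) (E : Fin m → Finset (Fin n))
    (hE : ∀ i ∈ P, (E i).card = t)
    (hdeg : ∀ v, (P.filter (fun i => v ∈ E i)).card ≤ t) :
    ∃ ω : Fin n → Bool, ∀ i ∈ P, ¬ ((∀ v ∈ E i, ω v = true) ∨ ∀ v ∈ E i, ω v = false) := by
  classical
  let A : Fin m → Finset (Fin n → Bool) := fun i =>
    univ.filter (fun ω => (∀ v ∈ E i, ω v = true) ∨ ∀ v ∈ E i, ω v = false)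
  have hA : ∀ i, DepOn (A i) (E i) := by
    intro i ω ω' h
    simp only [A, mem_filter, mem_univ, true_and]
    constructor
    · rintro (h1 | h1)
      · exact Or.inl fun v hv => (h v hv) ▸ h1 v hv
      · exact Or.inr fun v hv => (h v hv) ▸ h1 v hv
    · rintro (h1 | h1)
      · exact Or.inl fun v hv => (h v hv).symm ▸ h1 v hv
      · exact Or.inr fun v hv => (h v hv).symm ▸ h1 v hv
  set D : ℕ := t * (t - 1) with hD
  have hDpos : 0 < D := by
    rw [hD]
    exact Nat.mul_pos (by omega) (by omega)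
  have hDr : (0 : ℝ) < D := by exact_mod_cast hDpos
  have hx0 : (0 : ℝ) ≤ 1 / (D + 1) := by positivity
  have hx1 : (1 : ℝ) / (D + 1) < 1 := by
    rw [div_lt_one (by positivity)]
    linarith
  obtain ⟨ω, hω⟩ := lll P A E hA (fun _ => 1 / ((D : ℝ) + 1)) (fun _ => hx0) (fun _ => hx1) (by
    intro i hi
    set N := P.filter (fun j => j ≠ i ∧ ¬ Disjoint (E i) (E j)) with hN
    have hNcard : N.card ≤ D := by
      have hsub : N ⊆ (E i).biUnion (fun v => (P.filter (fun j => v ∈ E j)).erase i) := by
        intro j hj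
        rw [hN, mem_filter, not_disjoint_iff] at hj
        obtain ⟨hjP, hji, v, hv1, hv2⟩ := hj
        rw [mem_biUnion]
        exact ⟨v, hv1, mem_erase.2 ⟨hji, mem_filter.2 ⟨hjP, hv2⟩⟩⟩
      refine (card_le_card hsub).trans (card_biUnion_le.trans ?_)
      calc ∑ v ∈ E i, ((P.filter (fun j => v ∈ E j)).erase i).card
          ≤ ∑ v ∈ E i, (t - 1) := by
            refine sum_le_sum fun v hv => ?_
            rw [card_erase_of_mem (mem_filter.2 ⟨hi, hv⟩)]
            have := hdeg v
            omega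
        _ = D := by rw [sum_const, hE i hi, smul_eq_mul]
    have hcardA : ((A i).card : ℝ) * 2 ^ t ≤ 2 * 2 ^ n := by
      have h1 : (A i).card ≤ (univ.filter (fun ω : Fin n → Bool => ∀ v ∈ E i, ω v = true)).card +
          (univ.filter (fun ω : Fin n → Bool => ∀ v ∈ E i, ω v = false)).card := by
        refine le_trans (card_le_card ?_) (card_union_le _ _)
        intro ω hω
        simp only [A, mem_filter, mem_univ, true_and, mem_union] at hω ⊢
        exact hω
      have h2 := card_const (E i) true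
      have h3 := card_const (E i) false
      rw [hE i hi] at h2 h3
      have h4 : (A i).card * 2 ^ t ≤ 2 * 2 ^ n := by
        calc (A i).card * 2 ^ t ≤ (_ + _) * 2 ^ t := Nat.mul_le_mul_right _ h1
          _ = 2 * 2 ^ n := by rw [add_mul, h2, h3]; ring
      exact_mod_cast h4
    rw [prod_const]
    have hcardω : (Fintype.card (Fin n → Bool) : ℝ) = 2 ^ n := by
      simp
    rw [hcardω]
    -- (1 - 1/(D+1))^D ≥ 1/3
    have hb : (1 : ℝ) / 3 ≤ (1 - 1 / ((D : ℝ) + 1)) ^ N.card := by
      have h1 : (1 - 1 / ((D : ℝ) + 1)) ^ D ≤ (1 - 1 / ((D : ℝ) + 1)) ^ N.card :=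
        pow_le_pow_of_le_one (by linarith) (by linarith) hNcard
      refine le_trans ?_ h1
      have h2 : 1 - 1 / ((D : ℝ) + 1) = (1 + 1 / (D : ℝ))⁻¹ := by
        field_simp
        ring
      rw [h2, inv_pow]
      have h3 : (1 + 1 / (D : ℝ)) ^ D ≤ 3 := by
        calc (1 + 1 / (D : ℝ)) ^ D ≤ (Real.exp (1 / D)) ^ D := by
              apply pow_le_pow_left₀ (by positivity)
              have := Real.add_one_le_exp (1 / (D : ℝ))
              linarith
          _ = Real.exp 1 := by
              rw [← Real.exp_nat_mul]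
              congr 1
              field_simp
          _ ≤ 3 := by
              have := Real.exp_one_lt_d9
              linarith
      rw [one_div]
      exact inv_anti₀ (by positivity) h3
    have h6 : (6 : ℝ) * (D + 1) ≤ 2 ^ t := by
      have := six_le t ht
      rw [← hD] at this
      exact_mod_cast this
    have hpos : (0 : ℝ) < 2 ^ t := by positivity
    have h7 : ((A i).card : ℝ) ≤ 2 * 2 ^ n / 2 ^ t := by
      rw [le_div_iff₀ hpos]
      exact hcardA
    refine h7.trans ?_
    have h8 : (2 : ℝ) / 2 ^ t ≤ 1 / ((D : ℝ) + 1) * (1 / 3) := by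
      rw [div_mul_div_comm, one_mul, div_le_div_iff₀ hpos (by positivity)]
      linarith
    have h9 : 1 / ((D : ℝ) + 1) * (1 / 3) ≤
        1 / ((D : ℝ) + 1) * (1 - 1 / ((D : ℝ) + 1)) ^ N.card :=
      mul_le_mul_of_nonneg_left hb hx0
    calc (2 : ℝ) * 2 ^ n / 2 ^ t = 2 / 2 ^ t * 2 ^ n := by ring
      _ ≤ (1 / ((D : ℝ) + 1) * (1 - 1 / ((D : ℝ) + 1)) ^ N.card) * 2 ^ n :=
          mul_le_mul_of_nonneg_right (h8.trans h9) (by positivity))
  refine ⟨ω, fun i hi h => hω i hi ?_⟩
  simp only [A, mem_filter, mem_univ, true_and]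
  exact h

end Pool.Agent.H663R5.BF
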