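import Mathlib
import Pool.Agent.H294R2.BF.Cube

/-!
# A stronger cubical Tucker lemma

The face found carries only labels that occur with both signs.
-/

namespace H294BF

open Finset

variable {m n : ℕ}

/-- The hypothesis to be refuted: no face of positive dimension `d` on which every label occurs
with both signs has `d` labels. -/
def HypS (L : (Fin n → Bool) → Fin m × Bool) : Prop :=
  ∀ (S : Finset (Fin n)) (x : Fin n → Bool), S.Nonempty →
    (∀ u ∈ lab L S x, neg u ∈ lab L S x) → (paired L S x).card < S.card

lemma Bd_zero_of_noneS {L : (Fin n → Bool) → Fin m × Bool} (hH : HypS L) {d : ℕ}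
    {S : Finset (Fin n)} {x : Fin n → Bool} (hS : S.card = d + 1)
    (hp : piv (lab L S x) = none) (X : Finset (Fin m × Bool)) : Bd L d S x X = 0 := by
  by_contra hne
  obtain ⟨h1, h2, h3⟩ := Bd_supp L d S x X hne
  have h4 : X.card ≤ (paired L S x).card := by
    apply Finset.card_le_card_of_injOn Prod.fst
    · rintro ⟨i, b⟩ hu
      have hu' := h3 hu
      have h5 := piv_none hp i
      simp only [paired, Finset.coe_filter, Finset.mem_univ, true_and, Set.mem_ofPred_eq]
      cases b
      · exact ⟨h5.2 hu', hu'⟩
      · exact ⟨hu', h5.1 hu'⟩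
    · rintro ⟨i, b⟩ hu ⟨i', b'⟩ hv huv
      simp only at huv
      subst huv
      by_contra hc
      have hb : b' = !b := by
        cases b <;> cases b' <;> simp_all
      subst hb
      exact h2 _ hu hv
  have h5 := hH S x (Finset.card_pos.1 (by omega)) (by
    rintro ⟨i, b⟩ hu
    have h6 := piv_none hp i
    cases b
    · exact h6.2 hu
    · exact h6.1 hu)
  omega

/-- (P3) -/
lemma bd_PhS {L : (Fin n → Bool) → Fin m × Bool} (hH : HypS L) (d : ℕ) :
    ∀ (S : Finset (Fin n)) (x : Fin n → Bool), S.card = d + 1 →
      ∀ X, bd (Ph L (d + 1) S x) X = Bd L d S x X := by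
  induction d with
  | zero =>
    intro S x hS X
    rcases hp : piv (lab L S x) with _ | u
    · rw [Ph_succ_none hp, Bd_zero_of_noneS hH hS hp]
      simp [bd]
    · rw [Ph_succ_some hp]
      have h1 := bd_cone u (Bd L 0 S x) X
      have h2 : ∀ Y, bd (Bd L 0 S x) Y = 0 := by
        intro Y
        unfold Bd
        rw [bd_sum]
        apply Finset.sum_eq_zero
        intro s _
        rw [bd_sum]
        rw [Fintype.sum_bool]
        have h3 : ∀ v : Fin m × Bool, bd (fun X : Finset (Fin m × Bool) => if X = {v} then (1 : ZMod 2) else 0) Y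
            = if Y = ∅ then 1 else 0 := by
          intro v
          unfold bd
          by_cases hY : Y = ∅
          · subst hY
            simp
          · rw [if_neg hY]
            apply Finset.sum_eq_zero
            intro w hw
            refine if_neg ?_
            intro h
            apply hY
            have hw' : w ∉ Y := by simpa using hw
            have hc := Finset.card_insert_of_notMem hw'
            rw [h, Finset.card_singleton] at hc
            rw [← Finset.card_eq_zero]; omega
        have h4 : ∀ b : Bool, (Ph L 0 (S.erase s) (Function.update x s b)) =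
            fun X => if X = {L (Function.update x s b)} then 1 else 0 := by
          intro b; funext X; rw [Ph_zero]
        rw [h4, h4, h3, h3]
        exact two_self _
      have h5 : cone u (bd (Bd L 0 S x)) X = 0 := by
        unfold cone
        by_cases h : u ∈ X
        · rw [if_pos h, h2]
        · rw [if_neg h]
      rw [h5, add_zero] at h1
      exact h1
  | succ d ih =>
    intro S x hS X
    rcases hp : piv (lab L S x) with _ | u
    · rw [Ph_succ_none hp, Bd_zero_of_noneS hH hS hp]
      simp [bd]
    · rw [Ph_succ_some hp]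
      have h1 := bd_cone u (Bd L (d + 1) S x) X
      have h2 : ∀ Y, bd (Bd L (d + 1) S x) Y = 0 := by
        intro Y
        unfold Bd
        rw [bd_sum]
        have h3 : ∀ s ∈ S, bd (fun X => ∑ b : Bool, Ph L (d + 1) (S.erase s)
            (Function.update x s b) X) Y
            = ∑ s' ∈ S.erase s, ∑ b : Bool, ∑ b' : Bool, Ph L d ((S.erase s).erase s')
              (Function.update (Function.update x s b) s' b') Y := by
          intro s hs
          rw [bd_sum, Finset.sum_comm]
          apply Finset.sum_congr rfl
          intro b _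
          rw [ih (S.erase s) _ (by rw [Finset.card_erase_of_mem hs, hS]; rfl)]
          rfl
        rw [Finset.sum_congr rfl h3]
        apply sum_erase_symm
        intro s s' hss
        rw [Finset.sum_comm]
        apply Finset.sum_congr rfl
        intro b' _
        apply Finset.sum_congr rfl
        intro b _
        rw [Finset.erase_right_comm, Function.update_comm hss]
      have h5 : cone u (bd (Bd L (d + 1) S x)) X = 0 := by
        unfold cone
        by_cases h : u ∈ X
        · rw [if_pos h, h2]
        · rw [if_neg h]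
      rw [h5, add_zero] at h1
      exact h1

lemma bd_DcS {L : (Fin n → Bool) → Fin m × Bool} (hL : ∀ x, L (inv x) = neg (L x))
    (hH : HypS L) (i : ℕ) (X : Finset (Fin m × Bool)) :
    bd (Dc L (i + 1)) X = Dc L i X + Dc L i (negS X) := by
  unfold Dc
  rw [bd_sum]
  have h1 : ∀ S ∈ powersetCard (i + 1) (univ : Finset (Fin n)),
      bd (Ph L (i + 1) S (pat S)) X
        = ∑ s ∈ S, ∑ b : Bool, Ph L i (S.erase s) (Function.update (pat S) s b) X := by
    intro S hS
    rw [bd_PhS hH i S (pat S) (mem_powersetCard.1 hS).2]
    rfl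
  rw [Finset.sum_congr rfl h1]
  rw [Finset.sum_sigma']
  have h2 : ∑ p ∈ (powersetCard (i + 1) (univ : Finset (Fin n))).sigma (fun S => S),
      ∑ b : Bool, Ph L i (p.1.erase p.2) (Function.update (pat p.1) p.2 b) X
      = ∑ p ∈ (powersetCard i (univ : Finset (Fin n))).sigma (fun S => Sᶜ),
        ∑ b : Bool, Ph L i p.1 (Function.update (pat (insert p.2 p.1)) p.2 b) X := by
    refine Finset.sum_bij' (fun p _ => ⟨p.1.erase p.2, p.2⟩) (fun p _ => ⟨insert p.2 p.1, p.2⟩)
      ?_ ?_ ?_ ?_ ?_
    · rintro ⟨S, s⟩ h
      simp only [mem_sigma, mem_powersetCard, mem_compl] at h ⊢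
      refine ⟨⟨subset_univ _, ?_⟩, by simp⟩
      rw [Finset.card_erase_of_mem h.2, h.1.2]; rfl
    · rintro ⟨S, s⟩ h
      simp only [mem_sigma, mem_powersetCard, mem_compl] at h ⊢
      refine ⟨⟨subset_univ _, ?_⟩, by simp⟩
      rw [Finset.card_insert_of_notMem h.2, h.1.2]
    · rintro ⟨S, s⟩ h
      simp only [mem_sigma, mem_powersetCard, mem_compl] at h ⊢
      rw [Finset.insert_erase h.2]
    · rintro ⟨S, s⟩ h
      simp only [mem_sigma, mem_powersetCard, mem_compl] at h ⊢
      rw [Finset.erase_insert h.2]
    · rintro ⟨S, s⟩ h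
      simp only [mem_sigma, mem_powersetCard, mem_compl] at h ⊢
      rw [Finset.insert_erase h.2]
  rw [h2, Finset.sum_sigma]
  rw [← Finset.sum_add_distrib]
  apply Finset.sum_congr rfl
  intro S hS
  have hSc := (mem_powersetCard.1 hS).2
  have h3 : ∑ s ∈ Sᶜ, ∑ b : Bool, Ph L i S (Function.update (pat (insert s S)) s b) X
      = ∑ s ∈ Sᶜ, (Ph L i S (pst S s.val) X + Ph L i S (pst S (s.val + 1)) X) := by
    apply Finset.sum_congr rfl
    intro s hs
    exact upd_sum i S s (by simpa using hs) X
  have h4 : ∑ s ∈ S, (Ph L i S (pst S s.val) X + Ph L i S (pst S (s.val + 1)) X) = 0 := by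
    apply Finset.sum_eq_zero
    intro s hs
    rw [Ph_congr L i S (pst S (s.val + 1)) (pst S s.val) hSc, two_self]
    intro j hj
    unfold pst
    congr 1
    have : j.val ≠ s.val := by
      intro h
      have : j = s := Fin.ext h
      subst this
      exact hj hs
    rw [decide_eq_decide]
    omega
  have h5 : ∑ s : Fin n, (Ph L i S (pst S s.val) X + Ph L i S (pst S (s.val + 1)) X)
      = Ph L i S (pst S 0) X + Ph L i S (pst S n) X := by
    rw [← tele (fun t => Ph L i S (pst S t) X) n]
    exact Fin.sum_univ_eq_sum_range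
      (fun t => Ph L i S (pst S t) X + Ph L i S (pst S (t + 1)) X) n
  rw [h3]
  rw [← Finset.sum_add_sum_compl S, h4, zero_add] at h5
  rw [h5, pst_zero, pst_n, Ph_inv hL]

lemma stepS {L : (Fin n → Bool) → Fin m × Bool} (hL : ∀ x, L (inv x) = neg (L x))
    (hH : HypS L) (k : ℕ) :
    pr (cob (th (k + 1))) (Dc L (k + 1)) = pr (cob (th k)) (Dc L k) := by
  rw [← pr_bd, ← pr_sym]
  congr 1
  funext X
  exact bd_DcS hL hH k X

lemma all_oneS {L : (Fin n → Bool) → Fin m × Bool} (hL : ∀ x, L (inv x) = neg (L x))
    (hH : HypS L) (k : ℕ) : pr (cob (th k)) (Dc L k) = 1 := by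
  induction k with
  | zero => exact base L
  | succ k ih => rw [stepS hL hH, ih]

theorem not_HypS {L : (Fin n → Bool) → Fin m × Bool} (hL : ∀ x, L (inv x) = neg (L x)) :
    ¬ HypS L := by
  intro hH
  have h1 := all_oneS hL hH (n + 1)
  have h2 : ∀ X, Dc L (n + 1) X = 0 := by
    intro X
    unfold Dc
    rw [Finset.powersetCard_eq_empty.2 (by simp), Finset.sum_empty]
  unfold pr at h1
  simp [h2] at h1


/-- **Cubical Tucker lemma**, strong form. For an odd labelling `L` of the vertices of the
`n`-cube by signed labels, there is a face of positive dimension `d` such that every label on the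
face occurs there with both signs, and at least `d` labels occur. -/
theorem cube_tuckerS (L : (Fin n → Bool) → Fin m × Bool)
    (hL : ∀ x, L (fun j => !x j) = ((L x).1, !(L x).2)) :
    ∃ (S : Finset (Fin n)) (x : Fin n → Bool) (P : Finset (Fin m)), S.Nonempty ∧
      S.card ≤ P.card ∧ (∀ i ∈ P,
        (∃ y : Fin n → Bool, (∀ j, j ∉ S → y j = x j) ∧ L y = (i, true)) ∧
        (∃ y : Fin n → Bool, (∀ j, j ∉ S → y j = x j) ∧ L y = (i, false))) ∧
      ∀ y : Fin n → Bool, (∀ j, j ∉ S → y j = x j) → (L y).1 ∈ P := by
  have h := not_HypS (L := L) hL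
  unfold HypS at h
  push Not at h
  obtain ⟨S, x, hS, hall, hc⟩ := h
  refine ⟨S, x, paired L S x, hS, hc, ?_, ?_⟩
  · intro i hi
    simp only [paired, lab, Finset.mem_filter, Finset.mem_univ, true_and, Finset.mem_image,
      mem_face] at hi
    exact hi
  · intro y hy
    have h1 : L y ∈ lab L S x := Finset.mem_image_of_mem _ (mem_face.2 hy)
    have h2 := hall _ h1
    simp only [paired, Finset.mem_filter, Finset.mem_univ, true_and]
    rcases hLy : L y with ⟨i, b⟩
    rw [hLy] at h1 h2
    cases b
    · exact ⟨h2, h1⟩
    · exact ⟨h1, h2⟩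

end H294BF
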