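import Mathlib
import Pool.Agent.H294R2.BF.L1
import Pool.Agent.H663R5.BF.Cube

/-!
# Structure of a tight face
-/

namespace H294BF

open Finset

variable {m n : ℕ}

/-- If no signing keeps every row `i` within `T i`, there is a face of the cube on which the bad
rows are as many as the free columns, each of them is too large and too small somewhere on the
face, and every vertex of the face has one of them as a bad row. -/
theorem exists_tight (A : Fin m → Fin n → ℝ) (T : Fin m → ℝ) (hT : ∀ i, 0 ≤ T i)
    (hcon : ∀ x : Fin n → Bool, ∃ i, T i < |row A x i|) :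
    ∃ (S : Finset (Fin n)) (x : Fin n → Bool) (P : Finset (Fin m)), S.Nonempty ∧
      S.card ≤ P.card ∧
      (∀ i ∈ P, (∃ y : Fin n → Bool, (∀ j, j ∉ S → y j = x j) ∧ T i < row A y i) ∧
        ∃ y : Fin n → Bool, (∀ j, j ∉ S → y j = x j) ∧ row A y i < -T i) ∧
      ∀ y : Fin n → Bool, (∀ j, j ∉ S → y j = x j) → ∃ i ∈ P, T i < |row A y i| := by
  let bd : (Fin n → Bool) → Finset (Fin m) := fun x => univ.filter (fun i => T i < |row A x i|)
  have bdinv : ∀ x, bd (fun j => !x j) = bd x := by
    intro x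
    simp only [bd, row_inv, abs_neg]
  have hne : ∀ x, (bd x).Nonempty := by
    intro x
    obtain ⟨i, hi⟩ := hcon x
    exact ⟨i, by simp [bd, hi]⟩
  set ii : (Fin n → Bool) → Fin m := fun x => (bd x).min' (hne x) with hii
  have hbad : ∀ x, T (ii x) < |row A x (ii x)| := by
    intro x
    have h := Finset.min'_mem _ (hne x)
    exact (Finset.mem_filter.1 h).2
  have hiinv : ∀ x, ii (fun j => !x j) = ii x := by
    intro x
    simp only [hii]
    congr 1
    exact bdinv x
  set L : (Fin n → Bool) → Fin m × Bool := fun x => (ii x, decide (0 < row A x (ii x))) with hLd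
  have hL : ∀ x, L (fun j => !x j) = ((L x).1, !(L x).2) := by
    intro x
    have h1 : row A (fun j => !x j) (ii x) = - row A x (ii x) := row_inv A x _
    have h2 := hbad x
    simp only [hLd, hiinv x, h1, Prod.mk.injEq, true_and]
    by_cases hp : 0 < row A x (ii x)
    · have : ¬ (row A x (ii x) < 0) := by linarith
      simp [hp, this]
    · have h3 : row A x (ii x) < 0 := by
        rcases lt_trichotomy (row A x (ii x)) 0 with h | h | h
        · exact h
        · rw [h, abs_zero] at h2; linarith [hT (ii x)]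
        · exact absurd h hp
      simp [hp, h3]
  have hpos : ∀ x i, L x = (i, true) → T i < row A x i := by
    intro x i h
    simp only [hLd, Prod.mk.injEq, decide_eq_true_eq] at h
    obtain ⟨h1, h2⟩ := h
    have h3 := hbad x
    rw [abs_of_pos h2] at h3
    rwa [h1] at h3
  have hneg : ∀ x i, L x = (i, false) → row A x i < -T i := by
    intro x i h
    simp only [hLd, Prod.mk.injEq, decide_eq_false_iff_not, not_lt] at h
    obtain ⟨h1, h2⟩ := h
    have h3 := hbad x
    rw [abs_of_nonpos h2] at h3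
    rw [h1] at h3
    linarith
  obtain ⟨S, x, P, hS, hSP, hP, hall⟩ := cube_tuckerS L hL
  refine ⟨S, x, P, hS, hSP, ?_, ?_⟩
  · intro i hi
    obtain ⟨⟨y, hy, hyi⟩, ⟨z, hz, hzi⟩⟩ := hP i hi
    exact ⟨⟨y, hy, hpos y i hyi⟩, ⟨z, hz, hneg z i hzi⟩⟩
  · intro y hy
    exact ⟨ii y, hall y hy, hbad y⟩

/-- Two vertices of a face differ in a row by at most twice the weight of the row on the face. -/
theorem row_diff (A : Fin m → Fin n → ℝ) (S : Finset (Fin n)) (x y z : Fin n → Bool)
    (hy : ∀ j, j ∉ S → y j = x j) (hz : ∀ j, j ∉ S → z j = x j) (i : Fin m) :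
    row A y i - row A z i ≤ 2 * ∑ j ∈ S, |A i j| := by
  unfold row
  rw [← Finset.sum_sub_distrib, Finset.mul_sum]
  have h4 : ∑ j, (A i j * sg (y j) - A i j * sg (z j))
      = ∑ j ∈ S, (A i j * sg (y j) - A i j * sg (z j)) := by
    symm
    apply Finset.sum_subset (Finset.subset_univ _)
    intro j _ hj
    rw [hy j hj, hz j hj]; ring
  rw [h4]
  apply Finset.sum_le_sum
  intro j _
  calc A i j * sg (y j) - A i j * sg (z j) = A i j * (sg (y j) - sg (z j)) := by ring
    _ ≤ |A i j * (sg (y j) - sg (z j))| := le_abs_self _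
    _ = |A i j| * |sg (y j) - sg (z j)| := abs_mul _ _
    _ ≤ |A i j| * 2 := mul_le_mul_of_nonneg_left (sg_diff _ _) (abs_nonneg _)
    _ = 2 * |A i j| := by ring

/-- **Hall type signing theorem.** -/
theorem hall_signing (A : Fin m → Fin n → ℝ) (T : Fin m → ℝ) (hT : ∀ i, 0 ≤ T i)
    (hH : ∀ S : Finset (Fin n), S.Nonempty →
      (univ.filter (fun i => T i < ∑ j ∈ S, |A i j|)).card < S.card) :
    ∃ x : Fin n → Bool, ∀ i, |row A x i| ≤ T i := by
  by_contra hcon
  push Not at hcon
  obtain ⟨S, x, P, hS, hSP, hP, -⟩ := exists_tight A T hT hcon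
  have h1 : P ⊆ univ.filter (fun i => T i < ∑ j ∈ S, |A i j|) := by
    intro i hi
    obtain ⟨⟨y, hy, hyi⟩, ⟨z, hz, hzi⟩⟩ := hP i hi
    have h3 := row_diff A S x y z hy hz i
    rw [Finset.mem_filter]
    exact ⟨Finset.mem_univ _, by linarith⟩
  have h2 := Finset.card_le_card h1
  have h3 := hH S hS
  omega

end H294BF
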