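import Mathlib
import Pool.Agent.H663R5.BF.Struct
import Pool.Agent.H663R5.BF.Col

/-!
# Set systems of maximum degree `t ≥ 9` have discrepancy at most `t - 1`
-/

set_option autoImplicit false

namespace Pool.Agent.H663R5.BF

open Finset H294BF

variable {m n : ℕ}

/-- sign of a Boolean, as an integer -/
def sz (b : Bool) : ℤ := if b then 1 else -1

theorem sz_cast (b : Bool) : ((sz b : ℤ) : ℝ) = sg b := by cases b <;> simp [sz, sg]

theorem sz_le (b : Bool) : sz b ≤ 1 := by cases b <;> simp [sz]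

theorem le_sz (b : Bool) : -1 ≤ sz b := by cases b <;> simp [sz]

theorem sum_le (E : Finset (Fin n)) (y : Fin n → Bool) : ∑ i ∈ E, sz (y i) ≤ E.card := by
  calc ∑ i ∈ E, sz (y i) ≤ ∑ i ∈ E, (1 : ℤ) := Finset.sum_le_sum fun i _ => sz_le _
    _ = E.card := by simp

theorem le_sum (E : Finset (Fin n)) (y : Fin n → Bool) : -(E.card : ℤ) ≤ ∑ i ∈ E, sz (y i) := by
  calc -(E.card : ℤ) = ∑ i ∈ E, (-1 : ℤ) := by simp
    _ ≤ _ := Finset.sum_le_sum fun i _ => le_sz _

theorem mono_of_abs (E : Finset (Fin n)) (y : Fin n → Bool)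
    (h : (E.card : ℤ) ≤ |∑ i ∈ E, sz (y i)|) :
    (∀ v ∈ E, y v = true) ∨ ∀ v ∈ E, y v = false := by
  classical
  by_contra hcon
  push Not at hcon
  obtain ⟨⟨v, hv, hv1⟩, ⟨u, hu, hu1⟩⟩ := hcon
  have hv2 : sz (y v) = -1 := by
    rcases hb : y v with _ | _
    · rfl
    · exact absurd hb hv1
  have hu2 : sz (y u) = 1 := by
    rcases hb : y u with _ | _
    · exact absurd hb hu1
    · rfl
  have h1 : ∑ i ∈ E, sz (y i) = ∑ i ∈ E.erase v, sz (y i) + sz (y v) :=
    (Finset.sum_erase_add E _ hv).symm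
  have h2 : ∑ i ∈ E, sz (y i) = ∑ i ∈ E.erase u, sz (y i) + sz (y u) :=
    (Finset.sum_erase_add E _ hu).symm
  have h3 := sum_le (E.erase v) y
  have h4 := le_sum (E.erase u) y
  rw [Finset.card_erase_of_mem hv] at h3
  rw [Finset.card_erase_of_mem hu] at h4
  have h5 : 0 < E.card := Finset.card_pos.2 ⟨v, hv⟩
  rcases abs_cases (∑ i ∈ E, sz (y i)) with ⟨h6, _⟩ | ⟨h6, _⟩ <;> omega

/-- the incidence matrix -/
def inc (S : Fin m → Finset (Fin n)) (j : Fin m) (i : Fin n) : ℝ := if i ∈ S j then 1 else 0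

theorem row_inc (S : Fin m → Finset (Fin n)) (y : Fin n → Bool) (j : Fin m) :
    row (inc S) y j = ((∑ i ∈ S j, sz (y i) : ℤ) : ℝ) := by
  unfold row inc
  push_cast
  simp only [ite_mul, one_mul, zero_mul]
  rw [← Finset.sum_filter]
  have h3 : Finset.univ.filter (fun i => i ∈ S j) = S j := by ext; simp
  rw [h3]
  exact Finset.sum_congr rfl fun i _ => (sz_cast _).symm

theorem split (S F : Finset (Fin n)) (y : Fin n → Bool) :
    ∑ i ∈ S, sz (y i) = ∑ i ∈ S \ F, sz (y i) + ∑ i ∈ S ∩ F, sz (y i) := by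
  rw [← Finset.sum_union]
  · congr 1
    ext i
    simp only [mem_union, mem_sdiff, mem_inter]
    tauto
  · rw [Finset.disjoint_left]
    intro i hi hi'
    exact (mem_sdiff.1 hi).2 (mem_inter.1 hi').2

/-- If the discrepancy of a set system of maximum degree `t` is more than `t - 1`, a part of it
is a `t`-regular `t`-uniform hypergraph that is not 2-colourable. -/
theorem tight (t : ℕ) (ht : 1 ≤ t) (S : Fin m → Finset (Fin n))
    (hdeg : ∀ i : Fin n, (Finset.univ.filter (fun j : Fin m => i ∈ S j)).card ≤ t)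
    (hcon : ¬ ∃ x : Fin n → Bool, ∀ j, |∑ i ∈ S j, sz (x i)| ≤ (t : ℤ) - 1) :
    ∃ (F : Finset (Fin n)) (P : Finset (Fin m)), F.Nonempty ∧ (∀ j ∈ P, (S j ∩ F).card = t) ∧
      (∀ i ∈ F, (P.filter (fun j => i ∈ S j)).card = t) ∧
      ∀ ω : Fin n → Bool, ∃ j ∈ P, (∀ v ∈ S j ∩ F, ω v = true) ∨ ∀ v ∈ S j ∩ F, ω v = false := by
  classical
  push Not at hcon
  have hcon' : ∀ x : Fin n → Bool, ∃ j, ((t : ℝ) - 1) < |row (inc S) x j| := by
    intro x
    obtain ⟨j, hj⟩ := hcon x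
    refine ⟨j, ?_⟩
    rw [row_inc, ← Int.cast_abs]
    have : (((t : ℤ) - 1 : ℤ) : ℝ) < ((|∑ i ∈ S j, sz (x i)| : ℤ) : ℝ) := by exact_mod_cast hj
    push_cast at this ⊢
    exact this
  have ht1 : (1 : ℝ) ≤ t := by
    have : 1 ≤ t := by omega
    exact_mod_cast this
  obtain ⟨F, x, P, hF, hFP, hP, hall⟩ := exists_tight (inc S) (fun _ => (t : ℝ) - 1)
    (fun _ => by linarith) hcon'
  -- integer forms
  have hP1 : ∀ j ∈ P, (∃ y : Fin n → Bool, (∀ i, i ∉ F → y i = x i) ∧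
      (t : ℤ) ≤ ∑ i ∈ S j, sz (y i)) ∧
      ∃ y : Fin n → Bool, (∀ i, i ∉ F → y i = x i) ∧ ∑ i ∈ S j, sz (y i) ≤ -(t : ℤ) := by
    intro j hj
    obtain ⟨⟨y, hy, h1⟩, ⟨z, hz, h2⟩⟩ := hP j hj
    refine ⟨⟨y, hy, ?_⟩, ⟨z, hz, ?_⟩⟩
    · rw [row_inc] at h1
      have h3 : (((t : ℤ) - 1 : ℤ) : ℝ) < ((∑ i ∈ S j, sz (y i) : ℤ) : ℝ) := by
        push_cast at h1 ⊢
        exact h1
      have h4 : (t : ℤ) - 1 < ∑ i ∈ S j, sz (y i) := by exact_mod_cast h3
      omega
    · rw [row_inc] at h2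
      have h3 : ((∑ i ∈ S j, sz (z i) : ℤ) : ℝ) < ((-((t : ℤ) - 1) : ℤ) : ℝ) := by
        push_cast at h2 ⊢
        exact h2
      have h4 : ∑ i ∈ S j, sz (z i) < -((t : ℤ) - 1) := by exact_mod_cast h3
      omega
  have hall1 : ∀ y : Fin n → Bool, (∀ i, i ∉ F → y i = x i) →
      ∃ j ∈ P, (t : ℤ) ≤ |∑ i ∈ S j, sz (y i)| := by
    intro y hy
    obtain ⟨j, hj, h1⟩ := hall y hy
    refine ⟨j, hj, ?_⟩
    rw [row_inc, ← Int.cast_abs] at h1
    have h3 : (((t : ℤ) - 1 : ℤ) : ℝ) < ((|∑ i ∈ S j, sz (y i)| : ℤ) : ℝ) := by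
      push_cast at h1 ⊢
      exact h1
    have h4 : (t : ℤ) - 1 < |∑ i ∈ S j, sz (y i)| := by exact_mod_cast h3
    omega
  -- the fixed part
  have hfix : ∀ (y : Fin n → Bool), (∀ i, i ∉ F → y i = x i) → ∀ j,
      ∑ i ∈ S j, sz (y i) = ∑ i ∈ S j \ F, sz (x i) + ∑ i ∈ S j ∩ F, sz (y i) := by
    intro y hy j
    rw [split (S j) F y]
    congr 1
    exact Finset.sum_congr rfl fun i hi => by rw [hy i (mem_sdiff.1 hi).2]
  -- lower bound for the sizes
  have hlow : ∀ j ∈ P, t ≤ (S j ∩ F).card := by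
    intro j hj
    obtain ⟨⟨y, hy, h1⟩, ⟨z, hz, h2⟩⟩ := hP1 j hj
    rw [hfix y hy j] at h1
    rw [hfix z hz j] at h2
    have h3 := sum_le (S j ∩ F) y
    have h4 := le_sum (S j ∩ F) z
    omega
  have hsum : ∑ j ∈ P, (S j ∩ F).card ≤ F.card * t := by
    have h1 : ∀ j, (S j ∩ F).card = ∑ i ∈ F, if i ∈ S j then 1 else 0 := by
      intro j
      rw [Finset.sum_boole, Finset.inter_comm, Finset.filter_mem_eq_inter]
      simp
    simp only [h1]
    rw [Finset.sum_comm]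
    calc ∑ i ∈ F, ∑ j ∈ P, (if i ∈ S j then 1 else 0) ≤ ∑ i ∈ F, t := by
          refine Finset.sum_le_sum fun i _ => ?_
          rw [Finset.sum_boole]
          simp only [Nat.cast_id]
          exact (Finset.card_le_card (Finset.filter_subset_filter _ (Finset.subset_univ P))).trans
            (hdeg i)
      _ = F.card * t := by rw [sum_const, smul_eq_mul]
  have heq : ∀ j ∈ P, (S j ∩ F).card = t := by
    intro j hj
    by_contra hne
    have h1 : t < (S j ∩ F).card := lt_of_le_of_ne (hlow j hj) (fun h => hne h.symm)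
    have h2 : ∑ j ∈ P, t < ∑ j ∈ P, (S j ∩ F).card :=
      Finset.sum_lt_sum hlow ⟨j, hj, h1⟩
    rw [sum_const, smul_eq_mul] at h2
    have h3 : F.card * t ≤ P.card * t := Nat.mul_le_mul_right _ hFP
    omega
  have hzero : ∀ j ∈ P, ∑ i ∈ S j \ F, sz (x i) = 0 := by
    intro j hj
    obtain ⟨⟨y, hy, h1⟩, ⟨z, hz, h2⟩⟩ := hP1 j hj
    rw [hfix y hy j] at h1
    rw [hfix z hz j] at h2
    have h3 := sum_le (S j ∩ F) y
    have h4 := le_sum (S j ∩ F) z
    rw [heq j hj] at h3 h4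
    omega
  have hreg : ∀ i ∈ F, (P.filter (fun j => i ∈ S j)).card = t := by
    intro i hi
    have hle : ∀ i, (P.filter (fun j => i ∈ S j)).card ≤ t := fun i =>
      (Finset.card_le_card (Finset.filter_subset_filter _ (Finset.subset_univ P))).trans (hdeg i)
    by_contra hne
    have h1 : (P.filter (fun j => i ∈ S j)).card < t := lt_of_le_of_ne (hle i) hne
    have h2 : ∑ i ∈ F, (P.filter (fun j => i ∈ S j)).card < ∑ i ∈ F, t :=
      Finset.sum_lt_sum (fun i _ => hle i) ⟨i, hi, h1⟩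
    have h3 : ∑ i ∈ F, (P.filter (fun j => i ∈ S j)).card = ∑ j ∈ P, (S j ∩ F).card := by
      simp only [Finset.card_filter]
      rw [Finset.sum_comm]
      refine Finset.sum_congr rfl fun j _ => ?_
      rw [Finset.inter_comm, ← Finset.filter_mem_eq_inter, Finset.card_filter]
    rw [h3, Finset.sum_congr rfl heq, sum_const, sum_const, smul_eq_mul, smul_eq_mul] at h2
    have h4 : F.card * t ≤ P.card * t := Nat.mul_le_mul_right _ hFP
    omega
  refine ⟨F, P, hF, heq, hreg, fun ω => ?_⟩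
  obtain ⟨j, hj, hbad⟩ := hall1 (fun i => if i ∈ F then ω i else x i) (fun i hi => by simp [hi])
  rw [hfix _ (fun i hi => by simp [hi]) j, hzero j hj, zero_add] at hbad
  have h1 : ∑ i ∈ S j ∩ F, sz (if i ∈ F then ω i else x i) = ∑ i ∈ S j ∩ F, sz (ω i) :=
    Finset.sum_congr rfl fun i hi => by rw [if_pos (mem_inter.1 hi).2]
  rw [h1] at hbad
  exact ⟨j, hj, mono_of_abs (S j ∩ F) ω (by rw [heq j hj]; exact hbad)⟩

theorem bool_signing (t : ℕ) (ht : 9 ≤ t) (S : Fin m → Finset (Fin n))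
    (hdeg : ∀ i : Fin n, (Finset.univ.filter (fun j : Fin m => i ∈ S j)).card ≤ t) :
    ∃ x : Fin n → Bool, ∀ j, |∑ i ∈ S j, sz (x i)| ≤ (t : ℤ) - 1 := by
  classical
  by_contra hcon
  obtain ⟨F, P, hF, heq, hreg, hall⟩ := tight t (by omega) S hdeg hcon
  obtain ⟨ω, hω⟩ := two_col ht P (fun j => S j ∩ F) heq (by
    intro v
    refine le_trans (Finset.card_le_card ?_) (hdeg v)
    intro j hj
    rw [mem_filter] at hj ⊢
    exact ⟨mem_univ _, (mem_inter.1 hj.2).1⟩)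
  obtain ⟨j, hj, h2⟩ := hall ω
  exact hω j hj h2

/-- The bound `t - 1` for all set systems of maximum degree `t` is equivalent to the
2-colourability of `t`-regular `t`-uniform hypergraphs. -/
theorem bool_signing_of (t : ℕ) (ht : 1 ≤ t)
    (hT : ∀ (m n : ℕ) (S : Fin m → Finset (Fin n)), (∀ j, (S j).card = t) →
      (∀ i, (Finset.univ.filter (fun j : Fin m => i ∈ S j)).card = t) →
      ∃ ω : Fin n → Bool, ∀ j, (∃ v ∈ S j, ω v = true) ∧ ∃ v ∈ S j, ω v = false)
    (S : Fin m → Finset (Fin n))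
    (hdeg : ∀ i : Fin n, (Finset.univ.filter (fun j : Fin m => i ∈ S j)).card ≤ t) :
    ∃ x : Fin n → Bool, ∀ j, |∑ i ∈ S j, sz (x i)| ≤ (t : ℤ) - 1 := by
  classical
  by_contra hcon
  obtain ⟨F, P, hF, heq, hreg, hall⟩ := tight t ht S hdeg hcon
  let e : {i // i ∈ F} ≃ Fin F.card := F.equivFin
  let g : {j // j ∈ P} ≃ Fin P.card := P.equivFin
  let S' : Fin P.card → Finset (Fin F.card) := fun j =>
    Finset.univ.filter (fun i => (e.symm i).1 ∈ S (g.symm j).1)
  obtain ⟨ω, hω⟩ := hT P.card F.card S' (by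
      intro j
      rw [← heq (g.symm j).1 (g.symm j).2]
      refine Finset.card_bij (fun i _ => (e.symm i).1) ?_ ?_ ?_
      · intro i hi
        exact mem_inter.2 ⟨(mem_filter.1 hi).2, (e.symm i).2⟩
      · intro i _ i' _ h
        exact e.symm.injective (Subtype.ext h)
      · intro v hv
        refine ⟨e ⟨v, (mem_inter.1 hv).2⟩, ?_, ?_⟩
        · rw [mem_filter]
          refine ⟨mem_univ _, ?_⟩
          rw [Equiv.symm_apply_apply]
          exact (mem_inter.1 hv).1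
        · rw [Equiv.symm_apply_apply]) (by
      intro i
      rw [← hreg (e.symm i).1 (e.symm i).2]
      refine Finset.card_bij (fun j _ => (g.symm j).1) ?_ ?_ ?_
      · intro j hj
        exact mem_filter.2 ⟨(g.symm j).2, (mem_filter.1 (mem_filter.1 hj).2).2⟩
      · intro j _ j' _ h
        exact g.symm.injective (Subtype.ext h)
      · intro j hj
        refine ⟨g ⟨j, (mem_filter.1 hj).1⟩, ?_, ?_⟩
        · rw [mem_filter]
          refine ⟨mem_univ _, ?_⟩
          rw [mem_filter]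
          refine ⟨mem_univ _, ?_⟩
          rw [Equiv.symm_apply_apply]
          exact (mem_filter.1 hj).2
        · rw [Equiv.symm_apply_apply])
  obtain ⟨j, hj, h2⟩ := hall (fun v => if h : v ∈ F then ω (e ⟨v, h⟩) else true)
  obtain ⟨⟨v, hv, hv1⟩, ⟨u, hu, hu1⟩⟩ := hω (g ⟨j, hj⟩)
  have hv2 := (mem_filter.1 hv).2
  have hu2 := (mem_filter.1 hu).2
  rw [Equiv.symm_apply_apply] at hv2 hu2
  rcases h2 with h2 | h2
  · have h3 := h2 (e.symm u).1 (mem_inter.2 ⟨hu2, (e.symm u).2⟩)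
    rw [dif_pos (e.symm u).2] at h3
    have h4 : e ⟨(e.symm u).1, (e.symm u).2⟩ = u := e.apply_symm_apply u
    rw [h4, hu1] at h3
    exact absurd h3 (by decide)
  · have h3 := h2 (e.symm v).1 (mem_inter.2 ⟨hv2, (e.symm v).2⟩)
    rw [dif_pos (e.symm v).2] at h3
    have h4 : e ⟨(e.symm v).1, (e.symm v).2⟩ = v := e.apply_symm_apply v
    rw [h4, hv1] at h3
    exact absurd h3 (by decide)

end Pool.Agent.H663R5.BF
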